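import Pool.Agent.H96.JCT.Stmts

set_option autoImplicit false

namespace Pool.JCT

open Complex Set Topology Filter

theorem cty_sc : IsSimplyConnected (univ : Set (ℝ × ℝ)) := by
  have h : ContractibleSpace (univ : Set (ℝ × ℝ)) :=
    (convex_univ : Convex ℝ (univ : Set (ℝ × ℝ))).contractibleSpace univ_nonempty
  show SimplyConnectedSpace (univ : Set (ℝ × ℝ))
  infer_instance

theorem cty_z_cont : Continuous z := by
  have h : z = fun p : Pl => ((p.1 : ℂ) + (p.2 : ℂ) * I) := by
    funext p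
    apply Complex.ext <;> simp [z]
  rw [h]
  fun_prop

theorem cty_z_inj {p q : Pl} (h : z p = z q) : p = q := by
  have h1 := congrArg Complex.re h
  have h2 := congrArg Complex.im h
  exact Prod.ext h1 h2

/-- clamping to `uIcc a b` -/
noncomputable def cty_cl (a b x : ℝ) : ℝ := max (min a b) (min (max a b) x)

theorem cty_cl_cont (a b : ℝ) : Continuous (cty_cl a b) := by
  unfold cty_cl
  fun_prop

theorem cty_cl_mem (a b x : ℝ) : cty_cl a b x ∈ uIcc a b := by
  unfold cty_cl
  rw [uIcc, mem_Icc]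
  exact ⟨le_max_left _ _, max_le (min_le_max) (min_le_left _ _)⟩

theorem cty_cl_eq {a b x : ℝ} (hx : x ∈ uIcc a b) : cty_cl a b x = x := by
  rw [uIcc, mem_Icc] at hx
  unfold cty_cl
  have h1 : min (max a b) x = x := min_eq_right hx.2
  rw [h1]
  exact max_eq_right hx.1

theorem cty_thm (h1 : INC_S) : CTY_S := by
  intro H P a b c d hH hP hoff
  let g : ℝ × ℝ → ℂ := fun q => z (H (cty_cl c d q.1) (cty_cl a b q.2)) - z (P (cty_cl c d q.1))
  have hcl1 := cty_cl_cont c d
  have hcl2 := cty_cl_cont a b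
  have hz := cty_z_cont
  have hg : Continuous g := by
    have e1 : Continuous (fun q : ℝ × ℝ => H (cty_cl c d q.1) (cty_cl a b q.2)) :=
      hH.comp ((hcl1.comp continuous_fst).prodMk (hcl2.comp continuous_snd))
    exact (hz.comp e1).sub (hz.comp (hP.comp (hcl1.comp continuous_fst)))
  have hg0 : 0 ∉ g '' univ := by
    rintro ⟨q, -, hq⟩
    have h2 : z (H (cty_cl c d q.1) (cty_cl a b q.2)) = z (P (cty_cl c d q.1)) := sub_eq_zero.1 hq
    exact hoff _ (cty_cl_mem c d q.1) _ (cty_cl_mem a b q.2) (cty_z_inj h2)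
  obtain ⟨F, hFc, hF⟩ := Complex.exists_continuousOn_eqOn_exp_comp cty_sc isOpen_univ
    hg.continuousOn hg0
  have hFc' : Continuous F := continuousOn_univ.1 hFc
  have key : ∀ τ ∈ uIcc c d, F (τ, b) - F (τ, a) = inc (H τ) a b (P τ) := by
    intro τ hτ
    have hHτ : Continuous (H τ) := hH.comp (Continuous.prodMk_right τ)
    refine (h1 (H τ) a b (P τ) hHτ (hoff τ hτ)).2 (fun t => F (τ, t)) ⟨?_, ?_⟩
    · exact (hFc'.comp (Continuous.prodMk_right τ)).continuousOn
    · intro t ht
      have h3 := hF (mem_univ (τ, t))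
      have h4 : exp (F (τ, t)) = g (τ, t) := h3
      rw [h4]
      show z (H (cty_cl c d τ) (cty_cl a b t)) - z (P (cty_cl c d τ)) = _
      rw [cty_cl_eq hτ, cty_cl_eq ht]
  have hc : ContinuousOn (fun τ => F (τ, b) - F (τ, a)) (uIcc c d) := by
    apply Continuous.continuousOn
    exact (hFc'.comp (Continuous.prodMk_left b)).sub (hFc'.comp (Continuous.prodMk_left a))
  exact hc.congr (fun τ hτ => (key τ hτ).symm)

end Pool.JCT
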